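import Pool.Agent.CG2.Iface

/-!
# The cohomology of the locally symmetric spaces of `GL₂` over a number field: the statement

The definitions of this file repeat those of `Pool.Agent.CG2.Defs`, `Hecke`, `Levels` and
`Statement` with named types, so that they can be displayed in short form.
-/

noncomputable section

namespace Pool.Agent.CG2F

open Matrix NumberField IsDedekindDomain

/-- Prime numbers. -/
abbrev Pr := Nat.Primes

/-- The finite places of the number field `F`. -/
def Pl (F : Type) [Field F] [NumberField F] : Type := HeightOneSpectrum (𝓞 F)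

variable {F : Type} [Field F] [NumberField F]

/-- The prime ideal of a finite place. -/
def Pl.ideal (v : Pl F) : Ideal (𝓞 F) := HeightOneSpectrum.asIdeal v

/-- The finite place `v` lies above the rational prime `ℓ`. -/
def Above (ℓ : Pr) (v : Pl F) : Prop := ((ℓ : ℕ) : 𝓞 F) ∈ v.ideal

/-- The completion of `F` at the finite place `v`. -/
def Fv (v : Pl F) : Type := HeightOneSpectrum.adicCompletion F v

instance (v : Pl F) : Field (Fv v) :=
  (inferInstance : Field (HeightOneSpectrum.adicCompletion F v))

/-- The usual topology of the completion. -/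
instance (v : Pl F) : TopologicalSpace (Fv v) :=
  (inferInstance : TopologicalSpace (HeightOneSpectrum.adicCompletion F v))

/-- The ring of integers of the completion of `F` at `v`. -/
def Ov (v : Pl F) : Type := HeightOneSpectrum.adicCompletionIntegers F v

instance (v : Pl F) : CommRing (Ov v) :=
  (inferInstance : CommRing (HeightOneSpectrum.adicCompletionIntegers F v))

/-- The inclusion of the ring of integers in the completion. -/
def Ov.incl (v : Pl F) : Ov v →+* Fv v :=
  algebraMap (HeightOneSpectrum.adicCompletionIntegers F v) (HeightOneSpectrum.adicCompletion F v)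

/-- The embedding of `F` in its completion at `v`. -/
def emb (v : Pl F) : F →+* Fv v := algebraMap F (HeightOneSpectrum.adicCompletion F v)

/-- The group `GL₂(F)`. -/
def QG (F : Type) [Field F] : Type := GL (Fin 2) F

instance : Group (QG F) := (inferInstance : Group (GL (Fin 2) F))

/-- The underlying matrix. -/
def QG.mat (γ : QG F) : Matrix (Fin 2) (Fin 2) F := Units.val γ

/-- The group `GL₂(F_v)`. -/
def LG (v : Pl F) : Type := GL (Fin 2) (Fv v)

instance (v : Pl F) : Group (LG v) := (inferInstance : Group (GL (Fin 2) (Fv v)))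

/-- The usual topology of `GL₂(F_v)`. -/
instance (v : Pl F) : TopologicalSpace (LG v) :=
  (inferInstance : TopologicalSpace (GL (Fin 2) (Fv v)))

/-- The subgroup `GL₂(O_v)` of `GL₂(F_v)`. -/
def GZ (v : Pl F) : Subgroup (LG v) := (GeneralLinearGroup.map (n := Fin 2) (Ov.incl v)).range

/-- The families of elements of the groups `GL₂(F_v)`. -/
def Fam (F : Type) [Field F] [NumberField F] : Type := ∀ v : Pl F, LG v

instance : Group (Fam F) := (inferInstance : Group (∀ v : Pl F, LG v))

/-- Almost all members of the family `g` are in `GL₂(O_v)`. -/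
def AlmostInt (g : Fam F) : Prop := {v : Pl F | g v ∉ GZ v}.Finite

theorem almostInt_mul {a b : Fam F} (ha : AlmostInt a) (hb : AlmostInt b) : AlmostInt (a * b) :=
  (CG2.GA F).mul_mem' ha hb

theorem almostInt_one : AlmostInt (1 : Fam F) := (CG2.GA F).one_mem'

theorem almostInt_inv {a : Fam F} (ha : AlmostInt a) : AlmostInt a⁻¹ := (CG2.GA F).inv_mem' ha

/-- The subgroup of the families almost all of whose members are in `GL₂(O_v)`. -/
def GA (F : Type) [Field F] [NumberField F] : Subgroup (Fam F) where
  carrier := {g | AlmostInt g}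
  mul_mem' := almostInt_mul
  one_mem' := almostInt_one
  inv_mem' := almostInt_inv

/-- The group `GL₂(𝔸_f)`, `𝔸_f` the ring of finite adeles of `F` : the restricted product of the
groups `GL₂(F_v)` with respect to the subgroups `GL₂(O_v)`. -/
def AG (F : Type) [Field F] [NumberField F] : Type := GA F

instance : Group (AG F) := (inferInstance : Group (GA F))

/-- The element of `GL₂(𝔸_f)` given by a family. -/
def AG.mk (g : Fam F) (h : AlmostInt g) : AG F := ⟨g, h⟩

/-- The component at `v` of an element of `GL₂(𝔸_f)`. -/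
def AG.comp (g : AG F) (v : Pl F) : LG v := g.1 v

/-- The image of a matrix over `F` in `GL₂(F_v)`. -/
def loc (v : Pl F) (γ : QG F) : LG v := GeneralLinearGroup.map (emb v) γ

theorem almostInt_loc (γ : QG F) : AlmostInt (fun v => loc v γ) := (CG2.diag γ).2

/-- The image of `γ` under the diagonal embedding `GL₂(F) → GL₂(𝔸_f)`. -/
def diag (γ : QG F) : AG F := AG.mk (fun v => loc v γ) (almostInt_loc γ)

open Classical in
/-- The family with member `h` at `v` and `1` elsewhere. -/
def singleFam (v : Pl F) (h : LG v) : Fam F := Pi.mulSingle (M := LG) v h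

theorem almostInt_single (v : Pl F) (h : LG v) : AlmostInt (singleFam v h) := (CG2.single v h).2

/-- The element of `GL₂(𝔸_f)` with component `h` at `v` and `1` elsewhere. -/
def single (v : Pl F) (h : LG v) : AG F := AG.mk (singleFam v h) (almostInt_single v h)

/-- The real places of `F`. -/
def RPl (F : Type) [Field F] [NumberField F] : Type := {w : InfinitePlace F // w.IsReal}

/-- The embedding of `F` in `ℝ` given by a real place. -/
def RPl.emb (w : RPl F) : F →+* ℝ := InfinitePlace.embedding_of_isReal w.2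

/-- The group `{1,-1}^(real places)`, the set of the connected components of
`GL₂(F ⊗ ℝ) / ℝ_{>0} ∏ SO(2) ∏ U(2)`. -/
def Sg (F : Type) [Field F] [NumberField F] : Type := RPl F → ℤˣ

instance : Group (Sg F) := (inferInstance : Group (RPl F → ℤˣ))

open Classical in
/-- The action of `GL₂(F)` on this set: the signs of the determinant at the real places. -/
def sgn (γ : QG F) : Sg F := fun w => if 0 < w.emb γ.mat.det then 1 else -1

/-- The places above the rational prime `ℓ`. -/
def PlAbove (F : Type) [Field F] [NumberField F] (ℓ : Pr) : Type := {v : Pl F // Above ℓ v}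

/-- The group `GL₂(F ⊗ ℚ_ℓ)`, the product of the groups `GL₂(F_v)` over the places `v` above the
rational prime `ℓ`. -/
def GL2 (F : Type) [Field F] [NumberField F] (ℓ : Pr) : Type := ∀ v : PlAbove F ℓ, LG v.1

instance (ℓ : Pr) : Group (GL2 F ℓ) := (inferInstance : Group (∀ v : PlAbove F ℓ, LG v.1))

/-- The product topology. -/
instance (ℓ : Pr) : TopologicalSpace (GL2 F ℓ) :=
  (inferInstance : TopologicalSpace (∀ v : PlAbove F ℓ, LG v.1))

/-- All components of `g` are in `GL₂(O_v)`. -/
def IsHyp (ℓ : Pr) (g : GL2 F ℓ) : Prop := ∀ v, g v ∈ GZ v.1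

theorem isHyp_mul (ℓ : Pr) {a b : GL2 F ℓ} (ha : IsHyp ℓ a) (hb : IsHyp ℓ b) : IsHyp ℓ (a * b) :=
  fun v => (GZ v.1).mul_mem (ha v) (hb v)

theorem isHyp_one (ℓ : Pr) : IsHyp ℓ (1 : GL2 F ℓ) := fun v => (GZ v.1).one_mem

theorem isHyp_inv (ℓ : Pr) {a : GL2 F ℓ} (ha : IsHyp ℓ a) : IsHyp ℓ a⁻¹ :=
  fun v => (GZ v.1).inv_mem (ha v)

/-- The hyperspecial subgroup `GL₂(O_F ⊗ ℤ_ℓ)` of `GL₂(F ⊗ ℚ_ℓ)`. -/
def hyp (F : Type) [Field F] [NumberField F] (ℓ : Pr) : Subgroup (GL2 F ℓ) where
  carrier := {g | IsHyp ℓ g}
  mul_mem' := isHyp_mul ℓ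
  one_mem' := isHyp_one ℓ
  inv_mem' := isHyp_inv ℓ

/-- A level: compact open subgroups `K_ℓ` of `GL₂(F ⊗ ℚ_ℓ)` for all rational primes `ℓ`, with
`K_ℓ = GL₂(O_F ⊗ ℤ_ℓ)` for `ℓ` outside a finite set `S` of primes which contains `p`.
The group `K_f` is the product of the `K_ℓ`. -/
structure Level (F : Type) [Field F] [NumberField F] (p : Pr) (S : Finset Pr) where
  /-- the local groups -/
  K : ∀ ℓ : Pr, Subgroup (GL2 F ℓ)
  isOpen : ∀ ℓ, IsOpen (K ℓ : Set (GL2 F ℓ))
  isCompact : ∀ ℓ, IsCompact (K ℓ : Set (GL2 F ℓ))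
  off : ∀ ℓ, ℓ ∉ S → K ℓ = hyp F ℓ
  mem : p ∈ S

variable {p : Pr} {S : Finset Pr}

/-- The same level in the notation of `Pool.Agent.CG2`. -/
def Level.old (L : Level F p S) : CG2.Level F p S := ⟨L.K, L.isOpen, L.isCompact, L.off, L.mem⟩

/-- The component at the rational prime `ℓ` of an element of `GL₂(𝔸_f)`. -/
def AG.at (g : AG F) (ℓ : Pr) : GL2 F ℓ := fun v => g.comp v.1

/-- The element `g` of `GL₂(𝔸_f)` is in `K_f` : all its components are in the groups `K_ℓ`. -/
def Level.InK (L : Level F p S) (g : AG F) : Prop := ∀ ℓ, g.at ℓ ∈ L.K ℓ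

theorem Level.inK_mul (L : Level F p S) {a b : AG F} (ha : L.InK a) (hb : L.InK b) :
    L.InK (a * b) := fun ℓ => (L.K ℓ).mul_mem (ha ℓ) (hb ℓ)

theorem Level.inK_one (L : Level F p S) : L.InK 1 := fun ℓ => (L.K ℓ).one_mem

theorem Level.inK_inv (L : Level F p S) {a : AG F} (ha : L.InK a) : L.InK a⁻¹ :=
  fun ℓ => (L.K ℓ).inv_mem (ha ℓ)

/-- The group `K_f`, a subgroup of `GL₂(𝔸_f)`. -/
def Level.Kf (L : Level F p S) : Subgroup (AG F) where
  carrier := {k | L.InK k}
  mul_mem' := L.inK_mul
  one_mem' := L.inK_one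
  inv_mem' := L.inK_inv

/-- The group `K_p`. -/
def Level.Kp (L : Level F p S) : Type := L.K p

instance (L : Level F p S) : Group L.Kp := (inferInstance : Group (L.K p))

/-- The inclusion of `K_p` in `GL₂(F ⊗ ℚ_p)`. -/
def Level.val (L : Level F p S) (k : L.Kp) : GL2 F p := k.1

/-- The component at `p` of an element of `K_f`. -/
def Level.atp (L : Level F p S) (k : L.Kf) : L.Kp := ⟨k.1.at p, k.2 p⟩

/-- The groups `GL₂(F) ∩ g K_f g⁻¹` are torsion free, for all `g` in `GL₂(𝔸_f)`.
This holds when `K_f` is neat. -/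
def Level.TorsionFree (L : Level F p S) : Prop :=
  ∀ (g : AG F) (γ : QG F) (n : ℕ), 0 < n → g⁻¹ * diag γ * g ∈ L.Kf → γ ^ n = 1 → γ = 1

variable {O : Type} [CommRing O] {W : Type} [AddCommGroup W] [Module O W]

/-- The functions on `{1,-1}^(real places) × GL₂(𝔸_f)` with values in `W`. -/
def Fn (F : Type) [Field F] [NumberField F] (W : Type) : Type := Sg F × AG F → W

instance (W : Type) [AddCommGroup W] : AddCommGroup (Fn F W) :=
  (inferInstance : AddCommGroup (Sg F × AG F → W))

instance (O : Type) [CommRing O] (W : Type) [AddCommGroup W] [Module O W] : Module O (Fn F W) :=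
  (inferInstance : Module O (Sg F × AG F → W))

/-- The condition `f (x, g k) = k_p⁻¹ f (x, g)` for all `k` in `K_f`; here `σ` is the action of
`K_p` on `W`. -/
def IsForm (L : Level F p S) (σ : Representation O L.Kp W) (f : Fn F W) : Prop :=
  ∀ (y : Sg F × AG F) (k : L.Kf), f (y.1, y.2 * k) = σ (L.atp k)⁻¹ (f y)

theorem isForm_add (L : Level F p S) (σ : Representation O L.Kp W) {a b : Fn F W}
    (ha : IsForm L σ a) (hb : IsForm L σ b) : IsForm L σ (a + b) :=
  (CG2.Forms (O := O) (W := W) L.old.Kf (L.old.rep σ)).add_mem' ha hb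

theorem isForm_zero (L : Level F p S) (σ : Representation O L.Kp W) :
    IsForm L σ (0 : Fn F W) :=
  (CG2.Forms (O := O) (W := W) L.old.Kf (L.old.rep σ)).zero_mem'

theorem isForm_smul (L : Level F p S) (σ : Representation O L.Kp W) (c : O) {a : Fn F W}
    (ha : IsForm L σ a) : IsForm L σ (c • a) :=
  (CG2.Forms (O := O) (W := W) L.old.Kf (L.old.rep σ)).smul_mem' c ha

/-- The submodule of the functions with this property. -/
def FormsSub (L : Level F p S) (σ : Representation O L.Kp W) : Submodule O (Fn F W) where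
  carrier := {f | IsForm L σ f}
  add_mem' := isForm_add L σ
  zero_mem' := isForm_zero L σ
  smul_mem' := isForm_smul L σ

/-- The module of all functions `f` on `{1,-1}^(real places) × GL₂(𝔸_f)` with values in `W` such
that `f (x, g k) = k_p⁻¹ f (x, g)` for all `k` in `K_f`. -/
def Forms (L : Level F p S) (σ : Representation O L.Kp W) : Type := FormsSub L σ

instance (L : Level F p S) (σ : Representation O L.Kp W) : AddCommGroup (Forms L σ) :=
  (inferInstance : AddCommGroup (FormsSub L σ))

instance (L : Level F p S) (σ : Representation O L.Kp W) : Module O (Forms L σ) :=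
  (inferInstance : Module O (FormsSub L σ))

/-- The element of `Forms` given by a function. -/
def Forms.mk (L : Level F p S) (σ : Representation O L.Kp W) (f : Fn F W) (h : IsForm L σ f) :
    Forms L σ := ⟨f, h⟩

/-- The function underlying an element of `Forms`. -/
def Forms.fn {L : Level F p S} {σ : Representation O L.Kp W} (f : Forms L σ) : Fn F W := f.1

theorem Forms.isForm {L : Level F p S} {σ : Representation O L.Kp W} (f : Forms L σ) :
    IsForm L σ f.fn := f.2

/-- The translate `(x, g) ↦ f (γ⁻¹ x, γ⁻¹ g)` of a function. -/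
def translate (γ : QG F) (f : Fn F W) : Fn F W := fun y => f (sgn γ⁻¹ * y.1, diag γ⁻¹ * y.2)

theorem translate_isForm (L : Level F p S) (σ : Representation O L.Kp W) (γ : QG F)
    (f : Forms L σ) : IsForm L σ (translate γ f.fn) :=
  (CG2.formsRep (O := O) (W := W) L.old.Kf (L.old.rep σ) γ f).2

/-- The translate of an element of `Forms`. -/
def actFun (L : Level F p S) (σ : Representation O L.Kp W) (γ : QG F) (f : Forms L σ) :
    Forms L σ := Forms.mk L σ (translate γ f.fn) (translate_isForm L σ γ f)

theorem actFun_add (L : Level F p S) (σ : Representation O L.Kp W) (γ : QG F)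
    (f f' : Forms L σ) : actFun L σ γ (f + f') = actFun L σ γ f + actFun L σ γ f' := rfl

theorem actFun_smul (L : Level F p S) (σ : Representation O L.Kp W) (γ : QG F) (c : O)
    (f : Forms L σ) : actFun L σ γ (c • f) = c • actFun L σ γ f := rfl

/-- The translation by `γ` as a linear map. -/
def actLin (L : Level F p S) (σ : Representation O L.Kp W) (γ : QG F) :
    Module.End O (Forms L σ) where
  toFun := actFun L σ γ
  map_add' := actFun_add L σ γ
  map_smul' := actFun_smul L σ γ

theorem actLin_one (L : Level F p S) (σ : Representation O L.Kp W) : actLin L σ 1 = 1 :=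
  (CG2.formsRep (O := O) (W := W) L.old.Kf (L.old.rep σ)).map_one'

theorem actLin_mul (L : Level F p S) (σ : Representation O L.Kp W) (a b : QG F) :
    actLin L σ (a * b) = actLin L σ a * actLin L σ b :=
  (CG2.formsRep (O := O) (W := W) L.old.Kf (L.old.rep σ)).map_mul' a b

/-- The action of `GL₂(F)` on `Forms`: `(γ f)(x, g) = f (γ⁻¹ x, γ⁻¹ g)`. -/
def formsRep (L : Level F p S) (σ : Representation O L.Kp W) :
    Representation O (QG F) (Forms L σ) where
  toFun := actLin L σ
  map_one' := actLin_one L σ
  map_mul' := actLin_mul L σ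

/-- The `GL₂(F)`-module whose cohomology is the cohomology of `Y(K_f)` with coefficients in the
local system attached to `W`. -/
def coeff (L : Level F p S) (σ : Representation O L.Kp W) : Rep O (QG F) := Rep.of (formsRep L σ)

/-- The cohomology group `Hⁱ(Y(K_f), W)` : the group cohomology of the `GL₂(F)`-module
`coeff L σ`. -/
def H (L : Level F p S) (σ : Representation O L.Kp W) (i : ℕ) : Type :=
  groupCohomology (coeff L σ) i

instance (L : Level F p S) (σ : Representation O L.Kp W) (i : ℕ) : AddCommGroup (H L σ i) :=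
  (inferInstance : AddCommGroup (groupCohomology (coeff L σ) i))

instance (L : Level F p S) (σ : Representation O L.Kp W) (i : ℕ) : Module O (H L σ i) :=
  (inferInstance : Module O (groupCohomology (coeff L σ) i))

/-- The element `π` of `F` is a uniformiser at `v`. -/
def IsUnif (v : Pl F) (π : F) : Prop :=
  HeightOneSpectrum.valuation F v π = WithZero.exp (-1 : ℤ)

theorem exists_unif (v : Pl F) : ∃ π : F, IsUnif v π := v.valuation_exists_uniformizer F

/-- A uniformiser of `F_v` in `F`. -/
def unif (v : Pl F) : F := (exists_unif v).choose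

theorem unif_ne (v : Pl F) : unif v ≠ 0 := CG2.pi_ne v

/-- This uniformiser as a unit of `F`. -/
def unifU (v : Pl F) : Fˣ := Units.mk0 (unif v) (unif_ne v)

/-- The diagonal matrix with the nonzero diagonal entries `a, b`. -/
def dgm (a b : Fˣ) : Matrix (Fin 2) (Fin 2) F := Matrix.diagonal ![(a : F), b]

theorem dgm_det (a b : Fˣ) : (dgm a b).det ≠ 0 := by
  simp [dgm, Matrix.det_diagonal]

/-- The same matrix as an element of `GL₂(F)`. -/
def dg (a b : Fˣ) : QG F := GeneralLinearGroup.mkOfDetNeZero (dgm a b) (dgm_det a b)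

/-- The element `diag(π,1)`, `diag(π,π)`, `diag(π,π)⁻¹` of `GL₂(F_v)` for `j = 0, 1, 2`;
`π` is a uniformiser of `F_v`. -/
def alpha (v : Pl F) (j : Fin 3) : LG v :=
  loc v ((![dg (unifU v) 1, dg (unifU v) (unifU v), (dg (unifU v) (unifU v))⁻¹] :
    Fin 3 → QG F) j)

/-- The set of the cosets `h GL₂(O_v)` contained in the double coset
`GL₂(O_v) α GL₂(O_v)`, `α = alpha v j`. -/
def cosets (v : Pl F) (j : Fin 3) : Set (LG v ⧸ GZ v) :=
  {c | ∃ k ∈ GZ v, c = ((k * alpha v j : LG v) : LG v ⧸ GZ v)}

theorem cosets_finite (v : Pl F) (j : Fin 3) : (cosets v j).Finite := CG2.cosets_finite v j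

end Pool.Agent.CG2F
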