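import Pool.Agent.CG2F.Defs

/-!
# The Hecke algebra, its action on cohomology, and attached Galois representations
-/

noncomputable section

namespace Pool.Agent.CG2F

open CategoryTheory NumberField
open scoped IsMulCommutative

variable {F : Type} [Field F] [NumberField F] {p : Pr} {S : Finset Pr}
variable {O : Type} [CommRing O] {W : Type} [AddCommGroup W] [Module O W]

/-- The sum over the cosets in the definition of the Hecke operators. -/
def heckeSum (v : Pl F) (j : Fin 3) (f : Fn F W) : Fn F W :=
  fun y => ∑ c ∈ (cosets_finite v j).toFinset, f (y.1, y.2 * single v (Quotient.out c))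

/-- The finite place `v` lies above one of the rational primes in `S`. -/
def Ab (S : Finset Pr) (v : Pl F) : Prop := ∃ ℓ ∈ S, Above ℓ v

/-- The index set of the generators of the Hecke algebra: a finite place `v` which does not lie
above `S`, and `j ∈ {0,1,2}`. -/
def Idx (F : Type) [Field F] [NumberField F] (S : Finset Pr) : Type :=
  {v : Pl F // ¬ Ab S v} × Fin 3

/-- The place of an index. -/
def Idx.pl (t : Idx F S) : Pl F := t.1.1

/-- The number `j` of an index. -/
def Idx.j (t : Idx F S) : Fin 3 := t.2

/-- The index with place `v` and number `j`. -/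
def Idx.mk (v : Pl F) (hv : ¬ Ab S v) (j : Fin 3) : Idx F S := (⟨v, hv⟩, j)

theorem heckeSum_isForm (L : Level F p S) (σ : Representation O L.Kp W) (t : Idx F S)
    (f : Forms L σ) : IsForm L σ (heckeSum t.pl t.j f.fn) :=
  (CG2.heckeLin (O := O) (W := W) L.old.Kf (L.old.rep σ) (L.old.unram σ) t f).2

/-- The Hecke operator attached to `t` on `Forms`. -/
def heckeFun (L : Level F p S) (σ : Representation O L.Kp W) (t : Idx F S) (f : Forms L σ) :
    Forms L σ := Forms.mk L σ (heckeSum t.pl t.j f.fn) (heckeSum_isForm L σ t f)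

theorem heckeFun_add (L : Level F p S) (σ : Representation O L.Kp W) (t : Idx F S)
    (f f' : Forms L σ) : heckeFun L σ t (f + f') = heckeFun L σ t f + heckeFun L σ t f' :=
  (CG2.heckeLin (O := O) (W := W) L.old.Kf (L.old.rep σ) (L.old.unram σ) t).map_add' f f'

theorem heckeFun_smul (L : Level F p S) (σ : Representation O L.Kp W) (t : Idx F S) (c : O)
    (f : Forms L σ) : heckeFun L σ t (c • f) = c • heckeFun L σ t f :=
  (CG2.heckeLin (O := O) (W := W) L.old.Kf (L.old.rep σ) (L.old.unram σ) t).map_smul' c f

/-- The Hecke operator attached to `t` as an endomorphism of the `O`-module `Forms`. -/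
def heckeLin (L : Level F p S) (σ : Representation O L.Kp W) (t : Idx F S) :
    Module.End O (Forms L σ) where
  toFun := heckeFun L σ t
  map_add' := heckeFun_add L σ t
  map_smul' := heckeFun_smul L σ t

theorem heckeLin_equivariant (L : Level F p S) (σ : Representation O L.Kp W) (t : Idx F S)
    (γ : QG F) : heckeLin L σ t ∘ₗ formsRep L σ γ = formsRep L σ γ ∘ₗ heckeLin L σ t :=
  (CG2.heckeHom (O := O) (W := W) L.old.Kf (L.old.rep σ) (L.old.unram σ) t).hom.isIntertwining' γ

/-- The Hecke operator attached to `t` as an endomorphism of the representation `coeff L σ`. -/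
def heckeHom (L : Level F p S) (σ : Representation O L.Kp W) (t : Idx F S) :
    coeff L σ ⟶ coeff L σ :=
  Rep.ofHom
    { toLinearMap := heckeLin L σ t
      isIntertwining' := heckeLin_equivariant L σ t }

/-- The Hecke operator attached to `t` on the cohomology group `Hⁱ(Y(K_f), W)`. -/
def heckeCoh (L : Level F p S) (σ : Representation O L.Kp W) (i : ℕ) (t : Idx F S) :
    Module.End O (H L σ i) :=
  ((groupCohomology.functor O (QG F) i).map (heckeHom L σ t)).hom

theorem heckeLin_comm (L : Level F p S) (σ : Representation O L.Kp W) (s t : Idx F S) :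
    heckeLin L σ s * heckeLin L σ t = heckeLin L σ t * heckeLin L σ s := by
  apply LinearMap.ext
  intro f
  exact LinearMap.congr_fun
    (CG2.heckeLin_comm (O := O) (W := W) L.old.Kf (L.old.rep σ) (L.old.unram σ) s t) f

theorem heckeCoh_comm (L : Level F p S) (σ : Representation O L.Kp W) (i : ℕ) (s t : Idx F S) :
    heckeCoh L σ i s * heckeCoh L σ i t = heckeCoh L σ i t * heckeCoh L σ i s := by
  have h1 : heckeHom L σ s ≫ heckeHom L σ t = heckeHom L σ t ≫ heckeHom L σ s := by
    apply Rep.hom_ext
    apply Representation.IntertwiningMap.ext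
    apply LinearMap.ext
    intro f
    exact (LinearMap.congr_fun (heckeLin_comm L σ s t) f).symm
  have h2 := congrArg (fun a => ((groupCohomology.functor O (QG F) i).map a).hom) h1
  simp only [CategoryTheory.Functor.map_comp, ModuleCat.hom_comp] at h2
  exact h2.symm

/-- The Hecke algebra: the polynomial algebra over `O` on the Hecke operators `T_v`, `R_v`,
`R_v⁻¹`, `v` not above `S`. -/
def HeckeAlg (F : Type) [Field F] [NumberField F] (S : Finset Pr) (O : Type) [CommRing O] :
    Type := MvPolynomial (Idx F S) O

instance : CommRing (HeckeAlg F S O) := (inferInstance : CommRing (MvPolynomial (Idx F S) O))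

instance : Algebra O (HeckeAlg F S O) := (inferInstance : Algebra O (MvPolynomial (Idx F S) O))

/-- The generator of the Hecke algebra attached to `t`. -/
def HeckeAlg.T (O : Type) [CommRing O] (t : Idx F S) : HeckeAlg F S O :=
  MvPolynomial.X (R := O) t

/-- The algebra of endomorphisms of `Hⁱ(Y(K_f), W)`. -/
def EndH (L : Level F p S) (σ : Representation O L.Kp W) (i : ℕ) : Type :=
  Module.End O (H L σ i)

instance (L : Level F p S) (σ : Representation O L.Kp W) (i : ℕ) : Ring (EndH L σ i) :=
  (inferInstance : Ring (Module.End O (H L σ i)))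

instance (L : Level F p S) (σ : Representation O L.Kp W) (i : ℕ) : Algebra O (EndH L σ i) :=
  (inferInstance : Algebra O (Module.End O (H L σ i)))

/-- The value of an endomorphism of `Hⁱ(Y(K_f), W)`. -/
def EndH.app {L : Level F p S} {σ : Representation O L.Kp W} {i : ℕ} (a : EndH L σ i)
    (h : H L σ i) : H L σ i := (show Module.End O (H L σ i) from a) h

/-- The Hecke operator attached to `t` as an element of `EndH`. -/
def heckeEnd (L : Level F p S) (σ : Representation O L.Kp W) (i : ℕ) (t : Idx F S) :
    EndH L σ i := heckeCoh L σ i t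

/-- The algebra of endomorphisms of `Hⁱ(Y(K_f), W)` generated by the Hecke operators. -/
def heckeSub (L : Level F p S) (σ : Representation O L.Kp W) (i : ℕ) :
    Subalgebra O (EndH L σ i) :=
  Algebra.adjoin O (Set.range (heckeEnd L σ i))

/-- This algebra is commutative. -/
theorem heckeSub_comm (L : Level F p S) (σ : Representation O L.Kp W) (i : ℕ) :
    IsMulCommutative (heckeSub L σ i) :=
  Algebra.isMulCommutative_adjoin O (by
    rintro _ ⟨s, rfl⟩ _ ⟨t, rfl⟩
    exact heckeCoh_comm L σ i s t)

/-- The algebra of endomorphisms of `Hⁱ(Y(K_f), W)` generated by the Hecke operators, as a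
type. -/
def HeckeIm (L : Level F p S) (σ : Representation O L.Kp W) (i : ℕ) : Type := heckeSub L σ i

instance (L : Level F p S) (σ : Representation O L.Kp W) (i : ℕ) : CommRing (HeckeIm L σ i) :=
  have := heckeSub_comm L σ i
  (inferInstance : CommRing (heckeSub L σ i))

instance (L : Level F p S) (σ : Representation O L.Kp W) (i : ℕ) : Algebra O (HeckeIm L σ i) :=
  (inferInstance : Algebra O (heckeSub L σ i))

theorem heckeEnd_mem (L : Level F p S) (σ : Representation O L.Kp W) (i : ℕ) (t : Idx F S) :
    heckeEnd L σ i t ∈ heckeSub L σ i := Algebra.subset_adjoin ⟨t, rfl⟩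

/-- The Hecke operator attached to `t` as an element of `HeckeIm`. -/
def heckeGen (L : Level F p S) (σ : Representation O L.Kp W) (i : ℕ) (t : Idx F S) :
    HeckeIm L σ i := ⟨heckeEnd L σ i t, heckeEnd_mem L σ i t⟩

/-- The homomorphism from the Hecke algebra to `HeckeIm`. -/
def toIm (L : Level F p S) (σ : Representation O L.Kp W) (i : ℕ) :
    HeckeAlg F S O →ₐ[O] HeckeIm L σ i := MvPolynomial.aeval (heckeGen L σ i)

/-- The action of the element `t` of the Hecke algebra on `Hⁱ(Y(K_f), W)`. -/
def act (L : Level F p S) (σ : Representation O L.Kp W) (i : ℕ) (t : HeckeAlg F S O) :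
    EndH L σ i := (toIm L σ i t).1

/-- The localisation of `Hⁱ(Y(K_f), W)` at the prime ideal `m` of the Hecke algebra is not
zero. -/
def InSupport (L : Level F p S) (σ : Representation O L.Kp W) (i : ℕ)
    (m : Ideal (HeckeAlg F S O)) : Prop :=
  ∃ h : H L σ i, ∀ t : HeckeAlg F S O, t ∉ m → (act L σ i t).app h ≠ 0

/-- The action of `K_p` on `W` is continuous for the `𝔪`-adic topology of `W`, `𝔪` the maximal
ideal of `O`. -/
def IsContinuousRep [IsLocalRing O] (L : Level F p S) (σ : Representation O L.Kp W) : Prop :=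
  ∀ n : ℕ, ∃ U : Set (GL2 F p), IsOpen U ∧ 1 ∈ U ∧ ∀ k : L.Kp, L.val k ∈ U →
    ∀ w : W, σ k w - w ∈ (IsLocalRing.maximalIdeal O ^ n • ⊤ : Submodule O W)

/-- An algebraic closure of `F`. -/
def Fbar (F : Type) [Field F] : Type := AlgebraicClosure F

instance (F : Type) [Field F] : Field (Fbar F) := (inferInstance : Field (AlgebraicClosure F))

instance (F : Type) [Field F] : Algebra F (Fbar F) :=
  (inferInstance : Algebra F (AlgebraicClosure F))

/-- The absolute Galois group of `F`. -/
def GalF (F : Type) [Field F] : Type := Fbar F ≃ₐ[F] Fbar F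

instance (F : Type) [Field F] : Group (GalF F) := (inferInstance : Group (Fbar F ≃ₐ[F] Fbar F))

/-- The Krull topology. -/
instance (F : Type) [Field F] : TopologicalSpace (GalF F) :=
  (inferInstance : TopologicalSpace (Fbar F ≃ₐ[F] Fbar F))

/-- The image of `x` under `σ`. -/
def GalF.app (σ : GalF F) (x : Fbar F) : Fbar F := (show Fbar F ≃ₐ[F] Fbar F from σ) x

/-- The ring of algebraic integers in `Fbar`. -/
def Zbar (F : Type) [Field F] : Type := integralClosure ℤ (Fbar F)

instance (F : Type) [Field F] : CommRing (Zbar F) :=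
  (inferInstance : CommRing (integralClosure ℤ (Fbar F)))

/-- The inclusion of `Zbar` in `Fbar`. -/
def Zbar.val (x : Zbar F) : Fbar F := x.1

/-- The prime ideal `Q` of the ring of algebraic integers lies over the place `v`. -/
def Over (v : Pl F) (Q : Ideal (Zbar F)) : Prop :=
  Q.IsPrime ∧ ∀ a ∈ v.ideal, ∀ x : Zbar F, x.val = algebraMap F (Fbar F) (a : F) → x ∈ Q

/-- `σ` acts trivially on the residue ring `Zbar / Q`. -/
def IsInertia (Q : Ideal (Zbar F)) (σ : GalF F) : Prop :=
  ∀ x y : Zbar F, y.val = σ.app x.val → y - x ∈ Q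

/-- The norm of the finite place `v`, the number of elements of its residue field. -/
def Nm (v : Pl F) : ℕ := Ideal.absNorm v.ideal

/-- `σ` acts on the residue ring `Zbar / Q` by `x ↦ x ^ N v`: it is a Frobenius element at `Q`,
where `Q` lies over `v`. -/
def IsFrob (v : Pl F) (Q : Ideal (Zbar F)) (σ : GalF F) : Prop :=
  ∀ x y : Zbar F, y.val = σ.app x.val → y - x ^ Nm v ∈ Q

/-- The image in `k` of the generator of the Hecke algebra attached to `t`, where `k` is a field
extension of the residue field of the maximal ideal `m` of the Hecke algebra. -/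
def eig (m : Ideal (HeckeAlg F S O)) (k : Type) [Field k] [Algebra (HeckeAlg F S O ⧸ m) k]
    (t : Idx F S) : k :=
  algebraMap (HeckeAlg F S O ⧸ m) k (Ideal.Quotient.mk m (HeckeAlg.T O t))

/-- The matrix of `ρ(σ)`. -/
def mat {k : Type} [Field k] (ρ : GalF F →* GL (Fin 2) k) (σ : GalF F) :
    Matrix (Fin 2) (Fin 2) k := Units.val (ρ σ)

/-- The polynomial `X² - a X + b`. -/
def pol {k : Type} [Field k] (a b : k) : Polynomial k :=
  Polynomial.X ^ 2 - Polynomial.C a * Polynomial.X + Polynomial.C b

/-- The family `c` consists of square roots of the elements `(N v)^(b-1)`: this is the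
normalisation of the Satake isomorphism, up to a twist by a power of the cyclotomic character. -/
def IsNorm (S : Finset Pr) {k : Type} [Field k] (b : ℤ) (c : Pl F → k) : Prop :=
  ∀ v : Pl F, ¬ Ab S v → c v ^ 2 * ((Nm v : ℕ) : k) = ((Nm v : ℕ) : k) ^ b

/-- The representation `ρ` of the absolute Galois group of `F` is attached to the maximal
ideal `m` of the Hecke algebra: it is continuous, unramified outside `S`, and the characteristic
polynomial of (arithmetic, `e = 1`, or geometric, `e = -1`) Frobenius elements at `v` not above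
`S` is given by the Hecke eigenvalues through the Satake isomorphism, up to a twist by a power of
the cyclotomic character: `X² - c_v T_v X + (N v)^b R_v` with `c_v² N v = (N v)^b`. (The half
integral normalisation is `b = 0`.) -/
def Attached (m : Ideal (HeckeAlg F S O)) (k : Type) [Field k] [Algebra (HeckeAlg F S O ⧸ m) k]
    (ρ : GalF F →* GL (Fin 2) k) : Prop :=
  IsOpen {σ : GalF F | ρ σ = 1} ∧
  ∃ (b : ℤ) (e : ℤˣ) (c : Pl F → k), IsNorm S b c ∧
    ∀ (v : Pl F) (hv : ¬ Ab S v) (Q : Ideal (Zbar F)), Over v Q →
      (∀ σ : GalF F, IsInertia Q σ → ρ σ = 1) ∧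
      (∀ σ : GalF F, IsFrob v Q σ →
        (mat ρ (σ ^ (e : ℤ))).charpoly =
          pol (c v * eig m k (Idx.mk v hv 0))
            (((Nm v : ℕ) : k) ^ b * eig m k (Idx.mk v hv 1)))

/-- `ρ` does not factor through a proper parabolic subgroup of `GL₂`, after any finite extension
of the field `k`: over no finite extension is there a stable subspace other than `0` and the
whole space. -/
def NonEisenstein {k : Type} [Field k] (ρ : GalF F →* GL (Fin 2) k) : Prop :=
  ∀ (k' : Type) [Field k'] [Algebra k k'], Module.Finite k k' →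
    ∀ V : Submodule k' (Fin 2 → k'),
      (∀ (g : GalF F), ∀ v ∈ V, ((mat ρ g).map (algebraMap k k')).mulVec v ∈ V) →
      V = ⊥ ∨ V = ⊤

/-- The number of real places of `F`. -/
def r1 (F : Type) [Field F] [NumberField F] : ℕ := InfinitePlace.nrRealPlaces F

/-- The number of complex places of `F`. -/
def r2 (F : Type) [Field F] [NumberField F] : ℕ := InfinitePlace.nrComplexPlaces F

/-- The real dimension of `GL₂(F ⊗ ℝ) = GL₂(ℝ)^r1 × GL₂(ℂ)^r2`, minus that of
`A_∞ K_∞ = ℝ_{>0} × SO(2)^r1 × U(2)^r2`: the dimension of `Y(K_f)`. -/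
def dY (F : Type) [Field F] [NumberField F] : ℤ :=
  (4 * r1 F + 8 * r2 F : ℤ) - (1 + r1 F + 4 * r2 F)

/-- The difference of the ranks of `GL₂(F ⊗ ℝ)` and of `A_∞ K_∞`. -/
def ell0 (F : Type) [Field F] [NumberField F] : ℤ :=
  (2 * r1 F + 4 * r2 F : ℤ) - (1 + r1 F + 2 * r2 F)

/-- `q₀ = (d_Y - ℓ₀) / 2`. -/
def q0 (F : Type) [Field F] [NumberField F] : ℤ := (dY F - ell0 F) / 2

end Pool.Agent.CG2F
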