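import Pool.Agent.CG2F.Hecke
import Pool.Agent.CG2.Main

/-!
# Comparison of the two versions of the definitions
-/

noncomputable section

namespace Pool.Agent.CG2F

open CategoryTheory NumberField
open scoped IsMulCommutative

variable {F : Type} [Field F] [NumberField F] {p : Pr} {S : Finset Pr}
variable {O : Type} [CommRing O] {W : Type} [AddCommGroup W] [Module O W]

/-- A common form of `InSupport`. -/
def GenSupp {G : Type} [Group G] (A : Rep O G) {I : Type} (f : I → (A ⟶ A)) (i : ℕ)
    (m : Ideal (MvPolynomial I O)) : Prop :=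
  ∃ (h : groupCohomology A i) (Φ : MvPolynomial I O →ₐ[O] Module.End O (groupCohomology A i)),
    (∀ t, Φ (MvPolynomial.X t) = ((groupCohomology.functor O G i).map (f t)).hom) ∧
    ∀ t, t ∉ m → Φ t h ≠ 0

/-- The action of the Hecke algebra as a homomorphism. -/
def actHom (L : Level F p S) (σ : Representation O L.Kp W) (i : ℕ) :
    HeckeAlg F S O →ₐ[O] EndH L σ i := (heckeSub L σ i).val.comp (toIm L σ i)

theorem actHom_X (L : Level F p S) (σ : Representation O L.Kp W) (i : ℕ) (t : Idx F S) :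
    actHom L σ i (HeckeAlg.T O t) = heckeEnd L σ i t := by
  have h : toIm L σ i (HeckeAlg.T O t) = heckeGen L σ i t := MvPolynomial.aeval_X _ _
  exact congrArg Subtype.val h

theorem genSupp_of (L : Level F p S) (σ : Representation O L.Kp W) (i : ℕ)
    (m : Ideal (HeckeAlg F S O)) (h : InSupport L σ i m) :
    GenSupp (coeff L σ) (heckeHom L σ) i m := by
  obtain ⟨x, hx⟩ := h
  exact ⟨x, actHom L σ i, actHom_X L σ i, hx⟩

theorem of_genSupp (K : Subgroup (CG2.GA F)) {T : Set (CG2.Pl F)} (τ : Representation O K W)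
    (hU : CG2.UnramOff K τ T) (i : ℕ)
    (m : Ideal (CG2.HeckeAlg T O)) (h : GenSupp (CG2.coeff K τ) (CG2.heckeHom K τ hU) i m) :
    CG2.InSupport K τ hU i m := by
  obtain ⟨x, Φ, h1, h2⟩ := h
  have h3 : Φ = CG2.hact K τ hU i := by
    apply MvPolynomial.algHom_ext
    intro t
    rw [h1, CG2.hact_X]
    rfl
  rw [h3] at h2
  exact ⟨x, h2⟩

theorem genSupp_eq (L : Level F p S) (σ : Representation O L.Kp W) (i : ℕ)
    (m : Ideal (HeckeAlg F S O)) :
    GenSupp (coeff L σ) (heckeHom L σ) i m =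
      GenSupp (CG2.coeff (O := O) (W := W) L.old.Kf (L.old.rep σ))
        (CG2.heckeHom (O := O) (W := W) L.old.Kf (L.old.rep σ) (L.old.unram σ)) i m :=
  rfl

theorem inSupport_old (L : Level F p S) (σ : Representation O L.Kp W) (i : ℕ)
    (m : Ideal (HeckeAlg F S O)) (h : InSupport L σ i m) :
    CG2.InSupport (O := O) (W := W) L.old.Kf (L.old.rep σ) (L.old.unram σ) i m := by
  apply of_genSupp
  rw [← genSupp_eq]
  exact genSupp_of L σ i m h

theorem torsionFree_old (L : Level F p S) (h : L.TorsionFree) : CG2.TorsionFree L.old.Kf := h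

theorem isContinuousRep_old [IsLocalRing O] (L : Level F p S) (σ : Representation O L.Kp W)
    (h : IsContinuousRep L σ) : CG2.IsContinuousRep (O := O) (W := W) L.old σ := h

/-- The algebra structure for the old form of the Hecke algebra. -/
@[reducible] def algOld (m : Ideal (HeckeAlg F S O)) (k : Type) [Field k]
    [inst : Algebra (HeckeAlg F S O ⧸ m) k] :
    Algebra (CG2.HeckeAlg (CG2.ab F S) O ⧸ (m : Ideal (CG2.HeckeAlg (CG2.ab F S) O))) k := inst

theorem nonEisenstein_old {k : Type} [Field k] (ρ : GalF F →* GL (Fin 2) k)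
    (h : NonEisenstein ρ) : CG2.NonEisenstein (F := F) (k := k) ρ := h

theorem attached_old (m : Ideal (HeckeAlg F S O)) (k : Type) [Field k]
    [Algebra (HeckeAlg F S O ⧸ m) k] (ρ : GalF F →* GL (Fin 2) k) (h : Attached m k ρ) :
    @CG2.Attached F _ _ (CG2.ab F S) O _ m k _ (algOld m k) ρ := by
  obtain ⟨h1, h2⟩ := h
  refine ⟨?_, h2⟩
  have h3 : ((MonoidHom.ker (G := CG2.GalF F) (M := GL (Fin 2) k) ρ : Subgroup (CG2.GalF F)) :
      Set (CG2.GalF F)) = {σ : GalF F | ρ σ = 1} := rfl
  rw [h3]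
  exact h1

/-- The vanishing conjecture for `GL₂` over number fields with at least two archimedean places. -/
theorem main (F : Type) [Field F] [NumberField F] (hF : 2 ≤ Fintype.card (InfinitePlace F))
    (p : Pr) (S : Finset Pr) (L : Level F p S) (hTF : L.TorsionFree)
    (O : Type) [CommRing O] [IsDomain O] [IsDiscreteValuationRing O]
    (hpO : ((p : ℕ) : O) ∈ IsLocalRing.maximalIdeal O)
    (W : Type) [AddCommGroup W] [Module O W] [Module.Finite O W]
    (σ : Representation O L.Kp W) (hσ : IsContinuousRep L σ)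
    (m : Ideal (HeckeAlg F S O)) [hmax : m.IsMaximal]
    (k : Type) [Field k] [Algebra (HeckeAlg F S O ⧸ m) k]
    (ρ : GalF F →* GL (Fin 2) k) (hatt : Attached m k ρ) (hne : NonEisenstein ρ)
    (i : ℕ) (hm : InSupport L σ i m) :
    (2 ≤ i ∧ (i : ℤ) ≤ dY F - 2) ∧
      (Fintype.card (InfinitePlace F) = 2 → q0 F ≤ i ∧ (i : ℤ) ≤ q0 F + ell0 F) := by
  have h := @CG2.main F _ _ hF p S L.old (torsionFree_old L hTF) O _ _ _ hpO W _ _ _ σ
    (isContinuousRep_old L σ hσ) m hmax k _ (algOld m k) ρ (attached_old m k ρ hatt)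
    (nonEisenstein_old ρ hne) i (inSupport_old L σ i m hm)
  exact ⟨h, fun h2 => CG2.main_two h2 i h⟩

end Pool.Agent.CG2F
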